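import Mathlib

open Set Filter Topology Cardinal

namespace Pool.Agent.Results.MP_434b1a_gt.CovNumberCriterion

/-! ### Closing off in a connected Hausdorff space -/

/-- arities: `none` is the base point, `some (some r)` is a move inside a small neighbourhood,
`some none` is a limit of a sequence. -/
def Ar : Option (Option ℝ) → Type
  | none => PEmpty
  | some none => ℕ
  | some (some _) => Unit

lemma card_W : #(WType Ar) ≤ 𝔠 := by
  refine WType.cardinalMk_le_of_le ?_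
  have h1 : ∀ a : Option (Option ℝ), (𝔠 : Cardinal.{0}) ^ #(Ar a) ≤ 𝔠 := by
    intro a
    have h2 : #(Ar a) ≤ ℵ₀ := by
      rcases a with _ | _ | r
      · show #PEmpty ≤ ℵ₀
        simp
      · show #ℕ ≤ ℵ₀
        simp
      · show #Unit ≤ ℵ₀
        exact Cardinal.mk_le_aleph0
    calc (𝔠 : Cardinal.{0}) ^ #(Ar a) ≤ 𝔠 ^ ℵ₀ :=
          Cardinal.power_le_power_left Cardinal.continuum_ne_zero h2
      _ = 𝔠 := Cardinal.continuum_power_aleph0
  calc (Cardinal.sum fun a : Option (Option ℝ) => (𝔠 : Cardinal.{0}) ^ #(Ar a))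
      ≤ Cardinal.sum fun _ : Option (Option ℝ) => (𝔠 : Cardinal.{0}) := Cardinal.sum_le_sum _ _ h1
    _ = #(Option (Option ℝ)) * 𝔠 := by simp
    _ ≤ 𝔠 * 𝔠 := by
        refine mul_le_mul' ?_ le_rfl
        have : Infinite (Option ℝ) := inferInstance
        have h3 : #(Option (Option ℝ)) = #(Option ℝ) := by
          rw [Cardinal.mk_option]; exact Cardinal.add_one_eq (Cardinal.aleph0_le_mk _)
        have h4 : #(Option ℝ) = #ℝ := by
          rw [Cardinal.mk_option]; exact Cardinal.add_one_eq (Cardinal.aleph0_le_mk _)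
        rw [h3, h4, Cardinal.mk_real]
    _ = 𝔠 := by simp

lemma exists_range {X : Type} {S : Set X} (hne : S.Nonempty) (hS : #S ≤ 𝔠) :
    ∃ e : ℝ → X, range e = S := by
  rw [← Cardinal.mk_real] at hS
  obtain ⟨f⟩ := hS
  have : Nonempty S := hne.to_subtype
  have hs := Function.invFun_surjective f.injective
  refine ⟨fun r => (Function.invFun f r : S), ?_⟩
  ext x
  constructor
  · rintro ⟨r, rfl⟩
    exact Subtype.coe_prop _
  · intro hx
    obtain ⟨r, hr⟩ := hs ⟨x, hx⟩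
    exact ⟨r, by show ((Function.invFun f r : S) : X) = x; rw [hr]⟩

/-- A connected first countable Hausdorff space in which every point has an open neighbourhood of
size at most continuum has size at most continuum. -/
lemma card_le_continuum {X : Type} [TopologicalSpace X] [T2Space X] [PreconnectedSpace X]
    [FirstCountableTopology X] (hloc : ∀ x : X, ∃ V : Set X, IsOpen V ∧ x ∈ V ∧ #V ≤ 𝔠) :
    #X ≤ 𝔠 := by
  classical
  rcases isEmpty_or_nonempty X with hX | ⟨⟨x₀⟩⟩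
  · rw [Cardinal.mk_eq_zero]; exact bot_le
  have hNX : Nonempty X := ⟨x₀⟩
  choose V hVo hxV hV using hloc
  choose e he using fun x : X => exists_range ⟨x, hxV x⟩ (hV x)
  let I : WType Ar → X := WType.elim X (fun p => match p with
    | ⟨none, _⟩ => x₀
    | ⟨some none, g⟩ => limUnder atTop (fun n : ℕ => g n)
    | ⟨some (some r), g⟩ => e (g ()) r)
  have hopen : IsOpen (range I) := by
    rw [isOpen_iff_mem_nhds]
    rintro _ ⟨t, rfl⟩
    refine mem_of_superset ((hVo (I t)).mem_nhds (hxV (I t))) ?_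
    intro y hy
    rw [← he (I t)] at hy
    obtain ⟨r, hr⟩ := hy
    refine ⟨WType.mk (some (some r)) (fun _ => t), ?_⟩
    exact hr
  have hclosed : IsClosed (range I) := by
    rw [← closure_subset_iff_isClosed]
    intro x hx
    obtain ⟨f, hf, hfx⟩ := mem_closure_iff_seq_limit.1 hx
    choose t ht using hf
    refine ⟨WType.mk (some none) (fun n : ℕ => t n), ?_⟩
    have h1 : I (WType.mk (some none) (fun n : ℕ => t n)) = limUnder atTop (fun n : ℕ => I (t n)) :=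
      rfl
    rw [h1]
    have h2 : (fun n : ℕ => I (t n)) = f := funext ht
    rw [h2]
    exact hfx.limUnder_eq
  have huniv : range I = Set.univ :=
    IsClopen.eq_univ ⟨hclosed, hopen⟩ ⟨x₀, WType.mk none (fun b : PEmpty => b.elim), rfl⟩
  have hs : Function.Surjective I := range_eq_univ.1 huniv
  exact (Cardinal.mk_le_of_surjective hs).trans card_W

/-! ### The main counting lemma -/

/-- Let `M` be connected, locally connected and first countable, with every point in an open set of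
size at most continuum. If `M` is covered by a family `𝒰` of open Hausdorff sets, then
`#M ≤ max #𝒰 𝔠`. -/
lemma card_le_max {M : Type} [TopologicalSpace M] [ConnectedSpace M] [LocallyConnectedSpace M]
    [FirstCountableTopology M] (hloc : ∀ x : M, ∃ V : Set M, IsOpen V ∧ x ∈ V ∧ #V ≤ 𝔠)
    (𝒰 : Set (Set M)) (hU : ∀ U ∈ 𝒰, IsOpen U ∧ T2Space U) (hcov : ⋃₀ 𝒰 = Set.univ) :
    #M ≤ max #𝒰 𝔠 := by
  classical
  obtain ⟨x₀⟩ : Nonempty M := inferInstance
  -- components are small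
  have hcomp : ∀ U ∈ 𝒰, ∀ x ∈ U, #(connectedComponentIn U x) ≤ 𝔠 := by
    intro U hUU x hx
    have hsub : connectedComponentIn U x ⊆ U := connectedComponentIn_subset U x
    have hT2 : T2Space U := (hU U hUU).2
    have : T2Space (connectedComponentIn U x) :=
      (Topology.IsEmbedding.inclusion hsub).t2Space
    have : PreconnectedSpace (connectedComponentIn U x) :=
      Subtype.preconnectedSpace isPreconnected_connectedComponentIn
    refine card_le_continuum ?_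
    intro y
    obtain ⟨V, hVo, hyV, hV⟩ := hloc y
    refine ⟨Subtype.val ⁻¹' V, hVo.preimage continuous_subtype_val, hyV, ?_⟩
    refine le_trans ?_ hV
    exact Cardinal.mk_preimage_of_injective _ _ Subtype.val_injective
  have hne : ∀ (U : 𝒰) (x : M), ∃ e : ℝ → M, x ∈ (U : Set M) → range e = connectedComponentIn U x := by
    intro U x
    by_cases hx : x ∈ (U : Set M)
    · obtain ⟨e, he⟩ := exists_range ⟨x, mem_connectedComponentIn hx⟩ (hcomp U U.2 x hx)
      exact ⟨e, fun _ => he⟩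
    · exact ⟨fun _ => x, fun h => absurd h hx⟩
  choose e he using hne
  let J : List (𝒰 × ℝ) → M := fun l => l.foldr (fun p x => e p.1 x p.2) x₀
  have hstep : ∀ (U : 𝒰) (l : List (𝒰 × ℝ)), J l ∈ (U : Set M) →
      connectedComponentIn U (J l) ⊆ range J := by
    intro U l hl y hy
    rw [← he U (J l) hl] at hy
    obtain ⟨r, hr⟩ := hy
    exact ⟨(U, r) :: l, hr⟩
  have hopen : IsOpen (range J) := by
    rw [isOpen_iff_mem_nhds]
    rintro _ ⟨l, rfl⟩
    obtain ⟨U, hUU, hl⟩ : J l ∈ ⋃₀ 𝒰 := by rw [hcov]; trivial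
    exact mem_of_superset (((hU U hUU).1.connectedComponentIn).mem_nhds
      (mem_connectedComponentIn hl)) (hstep ⟨U, hUU⟩ l hl)
  have hclosed : IsClosed (range J) := by
    rw [← closure_subset_iff_isClosed]
    intro x hx
    obtain ⟨U, hUU, hxU⟩ : x ∈ ⋃₀ 𝒰 := by rw [hcov]; trivial
    obtain ⟨y, hy, l, hl⟩ := mem_closure_iff.1 hx _ ((hU U hUU).1.connectedComponentIn)
      (mem_connectedComponentIn hxU)
    have hyU : y ∈ U := connectedComponentIn_subset U x hy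
    have h1 : connectedComponentIn U x = connectedComponentIn U y := connectedComponentIn_eq hy
    have h2 : x ∈ connectedComponentIn U (J l) := by
      rw [hl, ← h1]; exact mem_connectedComponentIn hxU
    exact hstep ⟨U, hUU⟩ l (by rw [hl]; exact hyU) h2
  have huniv : range J = Set.univ := IsClopen.eq_univ ⟨hclosed, hopen⟩ ⟨x₀, [], rfl⟩
  have hs : Function.Surjective J := range_eq_univ.1 huniv
  refine (Cardinal.mk_le_of_surjective hs).trans ?_
  refine (Cardinal.mk_list_le_max _).trans ?_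
  rw [Cardinal.mk_prod, Cardinal.lift_id, Cardinal.lift_id, Cardinal.mk_real]
  refine max_le (Cardinal.aleph0_le_continuum.trans (le_max_right _ _)) ?_
  calc #𝒰 * 𝔠 ≤ max #𝒰 𝔠 * max #𝒰 𝔠 := mul_le_mul' (le_max_left _ _) (le_max_right _ _)
    _ = max #𝒰 𝔠 := Cardinal.mul_eq_self (Cardinal.aleph0_le_continuum.trans (le_max_right _ _))

/-! ### Manifolds -/

/-- `ℝⁿ` -/
abbrev E (n : ℕ) := EuclideanSpace ℝ (Fin n)

/-! ### Covering by nowhere dense sets -/

/-- `X` is not a union of fewer than `κ` nowhere dense sets -/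
def Cov (κ : Cardinal.{0}) (X : Type) [TopologicalSpace X] : Prop :=
  ∀ 𝒩 : Set (Set X), #𝒩 < κ → (∀ N ∈ 𝒩, IsNowhereDense N) → ⋃₀ 𝒩 ≠ Set.univ

/-- `cov(B)`: the least number of nowhere dense sets of reals whose union is the real line -/
noncomputable def covB : Cardinal.{0} :=
  sInf {κ | ∃ 𝒩 : Set (Set ℝ), (∀ N ∈ 𝒩, IsNowhereDense N) ∧ ⋃₀ 𝒩 = Set.univ ∧ #𝒩 = κ}

lemma Cov.homeo {κ : Cardinal.{0}} {X Y : Type} [TopologicalSpace X] [TopologicalSpace Y] (e : X ≃ₜ Y)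
    (h : Cov κ X) : Cov κ Y := by
  intro 𝒩 hc hN hu
  refine h ((fun N => e.symm '' N) '' 𝒩) (Cardinal.mk_image_le.trans_lt hc) ?_ ?_
  · rintro _ ⟨N, hN1, rfl⟩
    exact e.symm.isInducing.isNowhereDense_image (hN N hN1)
  · refine Set.eq_univ_of_forall fun x => ?_
    obtain ⟨N, hN1, hx⟩ : e x ∈ ⋃₀ 𝒩 := by rw [hu]; trivial
    exact ⟨_, ⟨N, hN1, rfl⟩, e x, hx, e.symm_apply_apply x⟩

lemma Cov.iUnion {κ : Cardinal.{0}} {X : Type} [TopologicalSpace X] (h : Cov κ X)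
    {ι : Type} (hι : #ι < κ)
    (F : ι → Set X) (hF : ∀ i, IsNowhereDense (F i)) : ∃ x, ∀ i, x ∉ F i := by
  by_contra hcon
  push Not at hcon
  refine h (range F) (Cardinal.mk_range_le.trans_lt hι) (by rintro _ ⟨i, rfl⟩; exact hF i) ?_
  refine Set.eq_univ_of_forall fun x => ?_
  obtain ⟨i, hi⟩ := hcon x
  exact ⟨F i, ⟨i, rfl⟩, hi⟩

lemma Cov.prod {κ : Cardinal.{0}} (hκ : ℵ₀ < κ) {X Y : Type} [TopologicalSpace X]
    [TopologicalSpace Y] [SecondCountableTopology Y]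
    (hX : Cov κ X) (hY : Cov κ Y) : Cov κ (X × Y) := by
  intro 𝒩 hc hN hu
  have hB : (TopologicalSpace.countableBasis Y).Countable :=
    TopologicalSpace.countable_countableBasis Y
  have hι : #(𝒩 × TopologicalSpace.countableBasis Y) < κ := by
    rw [Cardinal.mk_prod, Cardinal.lift_id, Cardinal.lift_id]
    exact Cardinal.mul_lt_of_lt hκ.le hc
      ((Cardinal.le_aleph0_iff_set_countable.2 hB).trans_lt hκ)
  have h1 : ∀ p : 𝒩 × TopologicalSpace.countableBasis Y,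
      IsNowhereDense {x : X | ∀ y ∈ (p.2 : Set Y), (x, y) ∈ closure (p.1 : Set (X × Y))} := by
    rintro ⟨N, b⟩
    have hcl : IsClosed {x : X | ∀ y ∈ (b : Set Y), (x, y) ∈ closure (N : Set (X × Y))} := by
      have : {x : X | ∀ y ∈ (b : Set Y), (x, y) ∈ closure (N : Set (X × Y))} =
          ⋂ y ∈ (b : Set Y), {x | (x, y) ∈ closure (N : Set (X × Y))} := by
        ext; simp
      rw [this]
      exact isClosed_biInter fun y _ => isClosed_closure.preimage (by fun_prop)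
    rw [hcl.isNowhereDense_iff]
    by_contra hne
    obtain ⟨x, hx⟩ := Set.nonempty_iff_ne_empty.2 hne
    obtain ⟨O, hO, hOo, hxO⟩ := mem_interior.1 hx
    obtain ⟨y, hy⟩ : (b : Set Y).Nonempty := TopologicalSpace.nonempty_of_mem_countableBasis b.2
    have hbo : IsOpen (b : Set Y) := TopologicalSpace.isOpen_of_mem_countableBasis b.2
    have h3 : (x, y) ∈ interior (closure (N : Set (X × Y))) :=
      mem_interior.2 ⟨O ×ˢ (b : Set Y), fun q hq => hO hq.1 q.2 hq.2, hOo.prod hbo, hxO, hy⟩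
    rw [hN N N.2] at h3
    exact h3
  obtain ⟨x, hx⟩ := hX.iUnion hι _ h1
  have h2 : ∀ N : 𝒩, IsNowhereDense {y : Y | (x, y) ∈ closure (N : Set (X × Y))} := by
    intro N
    have hcl : IsClosed {y : Y | (x, y) ∈ closure (N : Set (X × Y))} :=
      isClosed_closure.preimage (by fun_prop)
    rw [hcl.isNowhereDense_iff]
    by_contra hne
    obtain ⟨y, hy⟩ := Set.nonempty_iff_ne_empty.2 hne
    obtain ⟨b, hb, hyb, hbs⟩ :=
      (TopologicalSpace.isBasis_countableBasis Y).exists_subset_of_mem_open hy isOpen_interior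
    refine hx (N, ⟨b, hb⟩) fun y' hy' => ?_
    have h9 := interior_subset (hbs hy')
    exact h9
  obtain ⟨y, hy⟩ := hY.iUnion hc _ h2
  obtain ⟨N, hN1, hxy⟩ : (x, y) ∈ ⋃₀ 𝒩 := by rw [hu]; trivial
  exact hy ⟨N, hN1⟩ (subset_closure hxy)

lemma cov_zero (κ : Cardinal.{0}) : Cov κ (E 0) := by
  intro 𝒩 hc hN hu
  obtain ⟨N, hN1, hx⟩ : (0 : E 0) ∈ ⋃₀ 𝒩 := by rw [hu]; trivial
  have h1 : N = Set.univ := Set.eq_univ_of_forall fun y => by rwa [Subsingleton.elim y 0]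
  have h2 := hN N hN1
  rw [h1, IsNowhereDense, closure_univ, interior_univ] at h2
  exact Set.univ_nonempty.ne_empty h2

/-- `ℝ¹` is `ℝ` -/
noncomputable def toR : E 1 ≃ₜ ℝ :=
  (EuclideanSpace.equiv (Fin 1) ℝ).toHomeomorph.trans (Homeomorph.funUnique (Fin 1) ℝ)

/-- `ℝᵐ × ℝⁿ` is `ℝᵐ⁺ⁿ` -/
noncomputable def prodE (m n : ℕ) : E m × E n ≃ₜ E (m + n) :=
  (((EuclideanSpace.equiv (Fin m) ℝ).toHomeomorph.prodCongr
    (EuclideanSpace.equiv (Fin n) ℝ).toHomeomorph).trans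
    (Fin.appendHomeomorph m n)).trans (EuclideanSpace.equiv (Fin (m + n)) ℝ).toHomeomorph.symm

lemma cov_E {κ : Cardinal.{0}} (hκ : ℵ₀ < κ) (h : Cov κ ℝ) (n : ℕ) : Cov κ (E n) := by
  induction n with
  | zero => exact cov_zero κ
  | succ n ih => exact (Cov.prod hκ ih (h.homeo toR.symm)).homeo (prodE n 1)

lemma exists_covB : ∃ 𝒩 : Set (Set ℝ), (∀ N ∈ 𝒩, IsNowhereDense N) ∧
    ⋃₀ 𝒩 = Set.univ ∧ #𝒩 = covB := by
  have hne : {κ : Cardinal.{0} | ∃ 𝒩 : Set (Set ℝ), (∀ N ∈ 𝒩, IsNowhereDense N) ∧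
      ⋃₀ 𝒩 = Set.univ ∧ #𝒩 = κ}.Nonempty := by
    refine ⟨_, range (fun x : ℝ => ({x} : Set ℝ)), ?_, ?_, rfl⟩
    · rintro _ ⟨x, rfl⟩
      show IsNowhereDense ({x} : Set ℝ)
      rw [isClosed_singleton.isNowhereDense_iff, interior_singleton]
    · exact Set.eq_univ_of_forall fun x => ⟨{x}, ⟨x, rfl⟩, rfl⟩
  exact csInf_mem hne

lemma aleph0_lt_covB : ℵ₀ < covB := by
  by_contra hcon
  rw [not_lt] at hcon
  obtain ⟨𝒩, h1, h2, h3⟩ := exists_covB
  rw [← h3] at hcon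
  have h3 : 𝒩.Countable := Cardinal.le_aleph0_iff_set_countable.1 hcon
  have h4 : IsMeagre (Set.univ : Set ℝ) := by
    rw [isMeagre_iff_countable_union_isNowhereDense]
    exact ⟨𝒩, h1, h3, h2.ge⟩
  exact not_isMeagre_of_isOpen isOpen_univ Set.univ_nonempty h4

lemma covB_le_of {𝒩 : Set (Set ℝ)} (hN : ∀ N ∈ 𝒩, IsNowhereDense N) (hu : ⋃₀ 𝒩 = Set.univ) :
    covB ≤ #𝒩 := by
  have h7 : #𝒩 ∈ {κ : Cardinal.{0} | ∃ 𝒩 : Set (Set ℝ), (∀ N ∈ 𝒩, IsNowhereDense N) ∧
      ⋃₀ 𝒩 = Set.univ ∧ #𝒩 = κ} := ⟨𝒩, hN, hu, rfl⟩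
  exact csInf_le' h7

lemma covB_le_continuum : covB ≤ 𝔠 := by
  have h1 : ∀ N ∈ range (fun x : ℝ => ({x} : Set ℝ)), IsNowhereDense N := by
    rintro _ ⟨x, rfl⟩
    show IsNowhereDense ({x} : Set ℝ)
    rw [isClosed_singleton.isNowhereDense_iff, interior_singleton]
  have h2 : ⋃₀ range (fun x : ℝ => ({x} : Set ℝ)) = Set.univ :=
    Set.eq_univ_of_forall fun x => ⟨{x}, ⟨x, rfl⟩, rfl⟩
  exact (covB_le_of h1 h2).trans (Cardinal.mk_range_le.trans Cardinal.mk_real.le)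

lemma cov_covB (n : ℕ) : Cov covB (E n) := by
  refine cov_E aleph0_lt_covB ?_ n
  intro 𝒩 hc hN hu
  exact not_le.2 hc (covB_le_of hN hu)

/-! ### Definitions of the problem -/

/-- `U` is an open subset of `M` homeomorphic to `ℝⁿ` (an open Euclidean subset). -/
def IsChart (n : ℕ) {M : Type} [TopologicalSpace M] (U : Set M) : Prop :=
  IsOpen U ∧ Nonempty (U ≃ₜ E n)

/-- `M` is a manifold of dimension `n`: connected, and every point has an open neighbourhood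
homeomorphic to `ℝⁿ`; no Hausdorff assumption. -/
def IsMfd (n : ℕ) (M : Type) [TopologicalSpace M] : Prop :=
  ConnectedSpace M ∧ ∀ x : M, ∃ U : Set M, x ∈ U ∧ IsChart n U

/-- the points `y ≠ x` that cannot be separated from `x` by disjoint open sets -/
def NH {M : Type} [TopologicalSpace M] (x : M) : Set M :=
  {y | y ≠ x ∧ ∀ U V : Set M, IsOpen U → IsOpen V → x ∈ U → y ∈ V → (U ∩ V).Nonempty}

/-- everywhere non-Hausdorff manifolds of dimension `n` -/
def IsENH (n : ℕ) (M : Type) [TopologicalSpace M] : Prop :=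
  IsMfd n M ∧ ∀ x : M, (NH x).Nonempty

/-- the least cardinality of a cover of `M` by open Euclidean subsets -/
noncomputable def chartNumber (n : ℕ) (M : Type) [TopologicalSpace M] : Cardinal.{0} :=
  sInf {κ | ∃ 𝒰 : Set (Set M), (∀ U ∈ 𝒰, IsChart n U) ∧ ⋃₀ 𝒰 = Set.univ ∧ #𝒰 = κ}

/-- the least cardinality of a cover of `M` by open Hausdorff subsets -/
noncomputable def hausdorffNumber (M : Type) [TopologicalSpace M] : Cardinal.{0} :=
  sInf {κ | ∃ 𝒰 : Set (Set M), (∀ U ∈ 𝒰, IsOpen U ∧ T2Space U) ∧ ⋃₀ 𝒰 = Set.univ ∧ #𝒰 = κ}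

section mfd

variable {n : ℕ} {M : Type} [TopologicalSpace M]

lemma IsChart.t2 {U : Set M} (h : IsChart n U) : T2Space U := by
  obtain ⟨-, ⟨e⟩⟩ := h
  exact e.isEmbedding.t2Space

lemma IsChart.card_le {U : Set M} (h : IsChart n U) : #U ≤ 𝔠 := by
  obtain ⟨-, ⟨e⟩⟩ := h
  rw [Cardinal.mk_congr e.toEquiv, Cardinal.mk_congr (EuclideanSpace.equiv (Fin n) ℝ).toEquiv]
  simp only [Cardinal.mk_pi, Cardinal.mk_real, Cardinal.prod_const, Cardinal.lift_continuum]
  simp only [Cardinal.mk_fin, Cardinal.lift_natCast]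
  exact_mod_cast Cardinal.power_nat_le Cardinal.aleph0_le_continuum

lemma IsMfd.firstCountable (h : IsMfd n M) : FirstCountableTopology M := by
  refine ⟨fun x => ?_⟩
  obtain ⟨U, hxU, hUo, ⟨e⟩⟩ := h.2 x
  have : FirstCountableTopology U := e.isEmbedding.firstCountableTopology
  have h1 : Filter.map Subtype.val (𝓝 (⟨x, hxU⟩ : U)) = 𝓝 x :=
    hUo.isOpenEmbedding_subtypeVal.map_nhds_eq ⟨x, hxU⟩
  rw [← h1]
  infer_instance

lemma IsMfd.locallyConnected (h : IsMfd n M) : LocallyConnectedSpace M := by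
  rw [locallyConnectedSpace_iff_subsets_isOpen_isConnected]
  intro x S hS
  obtain ⟨U, hxU, hUo, ⟨e⟩⟩ := h.2 x
  have : LocallyConnectedSpace U := by
    have : LocallyConnectedSpace (E n) := inferInstance
    exact e.isOpenEmbedding.locallyConnectedSpace
  have h1 : Subtype.val ⁻¹' S ∈ 𝓝 (⟨x, hxU⟩ : U) :=
    continuous_subtype_val.continuousAt.preimage_mem_nhds hS
  obtain ⟨V, hVS, hVo, hxV, hV⟩ := (locallyConnectedSpace_iff_subsets_isOpen_isConnected.1 this)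
    ⟨x, hxU⟩ _ h1
  refine ⟨Subtype.val '' V, ?_, hUo.isOpenMap_subtype_val V hVo, ⟨⟨x, hxU⟩, hxV, rfl⟩,
    hV.image _ continuous_subtype_val.continuousOn⟩
  rintro _ ⟨y, hy, rfl⟩
  exact hVS hy

lemma IsMfd.card_le (h : IsMfd n M) (𝒰 : Set (Set M)) (hU : ∀ U ∈ 𝒰, IsOpen U ∧ T2Space U)
    (hcov : ⋃₀ 𝒰 = Set.univ) : #M ≤ max #𝒰 𝔠 := by
  have := h.1
  have := h.firstCountable
  have := h.locallyConnected
  refine card_le_max ?_ 𝒰 hU hcov
  intro x
  obtain ⟨U, hxU, hUc⟩ := h.2 x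
  exact ⟨U, hUc.1, hxU, hUc.card_le⟩

lemma IsMfd.exists_chart_cover (h : IsMfd n M) :
    ∃ 𝒰 : Set (Set M), (∀ U ∈ 𝒰, IsChart n U) ∧ ⋃₀ 𝒰 = Set.univ ∧ #𝒰 ≤ #M := by
  choose U hxU hU using h.2
  refine ⟨range U, ?_, ?_, Cardinal.mk_range_le⟩
  · rintro _ ⟨x, rfl⟩
    exact hU x
  · exact Set.eq_univ_of_forall fun x => ⟨U x, ⟨x, rfl⟩, hxU x⟩

lemma IsMfd.chartNumber_le (h : IsMfd n M) : chartNumber n M ≤ #M := by
  obtain ⟨𝒰, h1, h2, h3⟩ := h.exists_chart_cover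
  have h7 : #𝒰 ∈ {κ : Cardinal.{0} | ∃ 𝒰 : Set (Set M), (∀ U ∈ 𝒰, IsChart n U) ∧
      ⋃₀ 𝒰 = Set.univ ∧ #𝒰 = κ} := ⟨𝒰, h1, h2, rfl⟩
  exact (csInf_le' h7).trans h3

lemma IsMfd.exists_hausdorff_cover (h : IsMfd n M) :
    ∃ 𝒰 : Set (Set M), (∀ U ∈ 𝒰, IsOpen U ∧ T2Space U) ∧ ⋃₀ 𝒰 = Set.univ ∧
      #𝒰 = hausdorffNumber M := by
  obtain ⟨𝒰, h1, h2, -⟩ := h.exists_chart_cover
  have hne : {κ | ∃ 𝒰 : Set (Set M), (∀ U ∈ 𝒰, IsOpen U ∧ T2Space U) ∧
      ⋃₀ 𝒰 = Set.univ ∧ #𝒰 = κ}.Nonempty :=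
    ⟨#𝒰, 𝒰, fun U hU => ⟨(h1 U hU).1, (h1 U hU).t2⟩, h2, rfl⟩
  exact csInf_mem hne

lemma IsMfd.hausdorffNumber_le (h : IsMfd n M) : hausdorffNumber M ≤ chartNumber n M := by
  obtain ⟨𝒰, h1, h2, -⟩ := h.exists_chart_cover
  have hne : {κ : Cardinal.{0} | ∃ 𝒰 : Set (Set M), (∀ U ∈ 𝒰, IsChart n U) ∧
      ⋃₀ 𝒰 = Set.univ ∧ #𝒰 = κ}.Nonempty := ⟨#𝒰, 𝒰, h1, h2, rfl⟩
  have h0 : ∃ 𝒰 : Set (Set M), (∀ U ∈ 𝒰, IsChart n U) ∧
      ⋃₀ 𝒰 = Set.univ ∧ #𝒰 = chartNumber n M := csInf_mem hne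
  obtain ⟨𝒱, h3, h4, h5⟩ := h0
  have h6 : hausdorffNumber M ≤ #𝒱 := by
    have h7 : #𝒱 ∈ {κ | ∃ 𝒰 : Set (Set M), (∀ U ∈ 𝒰, IsOpen U ∧ T2Space U) ∧
        ⋃₀ 𝒰 = Set.univ ∧ #𝒰 = κ} :=
      ⟨𝒱, fun U hU => ⟨(h3 U hU).1, (h3 U hU).t2⟩, h4, rfl⟩
    exact csInf_le' h7
  exact h6.trans h5.le

lemma IsMfd.chartNumber_le_max (h : IsMfd n M) :
    chartNumber n M ≤ max (hausdorffNumber M) 𝔠 := by
  obtain ⟨𝒰, h1, h2, h3⟩ := h.exists_hausdorff_cover
  rw [← h3]
  exact h.chartNumber_le.trans (h.card_le 𝒰 h1 h2)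

lemma IsMfd.eq_of_le (h : IsMfd n M) (hc : 𝔠 ≤ hausdorffNumber M) :
    chartNumber n M = hausdorffNumber M :=
  le_antisymm (h.chartNumber_le_max.trans (by rw [max_eq_left hc])) h.hausdorffNumber_le

lemma isNowhereDense_frontier {U V : Set M} (hU : IsOpen U) (hV : IsOpen V) :
    IsNowhereDense {v : V | (v : M) ∈ frontier U} := by
  have hc : IsClosed {v : V | (v : M) ∈ frontier U} :=
    isClosed_frontier.preimage continuous_subtype_val
  rw [hc.isNowhereDense_iff]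
  by_contra hne
  obtain ⟨v, hv⟩ := Set.nonempty_iff_ne_empty.2 hne
  obtain ⟨O, hO, hOo, hvO⟩ := mem_interior.1 hv
  have h1 : IsOpen (Subtype.val '' O : Set M) := hV.isOpenMap_subtype_val O hOo
  have h2 : (v : M) ∈ closure U := (hO hvO).1
  obtain ⟨y, ⟨w, hw, rfl⟩, hyU⟩ := mem_closure_iff.1 h2 _ h1 ⟨v, hvO, rfl⟩
  have h3 : (w : M) ∈ frontier U := hO hw
  rw [hU.frontier_eq] at h3
  exact h3.2 hyU

lemma IsENH.covB_le (h : IsENH n M) : covB ≤ hausdorffNumber M := by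
  have hcov := cov_covB n
  obtain ⟨𝒰, hU, hUcov, hcard⟩ := h.1.exists_hausdorff_cover
  rw [← hcard]
  by_contra hlt
  rw [not_le] at hlt
  obtain ⟨x₀⟩ : Nonempty M := h.1.1.toNonempty
  obtain ⟨V, hxV, hVo, ⟨e⟩⟩ := h.1.2 x₀
  let F : Set M → Set (E n) := fun U => e '' {v : V | (v : M) ∈ frontier U}
  refine hcov (F '' 𝒰) (Cardinal.mk_image_le.trans_lt hlt) ?_ ?_
  · rintro _ ⟨U, hUU, rfl⟩
    exact e.isInducing.isNowhereDense_image (isNowhereDense_frontier (hU U hUU).1 hVo)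
  · refine Set.eq_univ_of_forall fun z => ?_
    obtain ⟨v, rfl⟩ := e.surjective z
    obtain ⟨y, hyne, hy⟩ := h.2 (v : M)
    obtain ⟨U, hUU, hyU⟩ : y ∈ ⋃₀ 𝒰 := by rw [hUcov]; trivial
    refine ⟨F U, ⟨U, hUU, rfl⟩, v, ?_, rfl⟩
    show (v : M) ∈ frontier U
    rw [(hU U hUU).1.frontier_eq]
    refine ⟨?_, ?_⟩
    · rw [mem_closure_iff]
      intro O hO hvO
      exact hy O U hO (hU U hUU).1 hvO hyU
    · intro hvU
      have := (hU U hUU).2
      have hne : (⟨v, hvU⟩ : U) ≠ ⟨y, hyU⟩ := fun hh => hyne (congrArg Subtype.val hh).symm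
      obtain ⟨A, B, hA, hB, hvA, hyB, hAB⟩ := t2_separation hne
      obtain ⟨z, hz⟩ := hy (Subtype.val '' A) (Subtype.val '' B)
        ((hU U hUU).1.isOpenMap_subtype_val A hA) ((hU U hUU).1.isOpenMap_subtype_val B hB)
        ⟨_, hvA, rfl⟩ ⟨_, hyB, rfl⟩
      obtain ⟨⟨a, ha, rfl⟩, ⟨b, hb, hba⟩⟩ := hz
      have : b = a := Subtype.ext hba
      subst this
      exact Set.disjoint_left.1 hAB ha hb

end mfd



/-! ### Construction -/

section atlas

variable {A X : Type} (φ : A → ℝ × ℝ → X)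

/-- the underlying set of the glued space -/
def Sp : Type := {x : X // ∃ a z, φ a z = x}

/-- chart maps -/
def ch (a : A) (z : ℝ × ℝ) : Sp φ := ⟨φ a z, a, z, rfl⟩

instance topSp : TopologicalSpace (Sp φ) := ⨆ a : A, TopologicalSpace.coinduced (ch φ a) inferInstance

lemma isOpen_Sp {O : Set (Sp φ)} : IsOpen O ↔ ∀ a, IsOpen (ch φ a ⁻¹' O) := by
  show IsOpen[⨆ a : A, TopologicalSpace.coinduced (ch φ a) inferInstance] O ↔ _
  rw [isOpen_iSup_iff]
  rfl

lemma continuous_ch (a : A) : Continuous (ch φ a) :=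
  continuous_def.2 fun _ hO => (isOpen_Sp φ).1 hO a

variable {φ} (hinj : ∀ a, Function.Injective (φ a))
  (hcomp : ∀ a b (W : Set (ℝ × ℝ)), IsOpen W → IsOpen (φ a ⁻¹' (φ b '' W)))

include hcomp in
lemma isOpen_image {W : Set (ℝ × ℝ)} (hW : IsOpen W) (b : A) : IsOpen (ch φ b '' W) := by
  rw [isOpen_Sp]
  intro a
  convert hcomp a b W hW using 1
  ext z
  constructor
  · rintro ⟨w, hw, h⟩
    exact ⟨w, hw, congrArg Subtype.val h⟩
  · rintro ⟨w, hw, h⟩
    exact ⟨w, hw, Subtype.ext h⟩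

include hinj hcomp in
lemma isOpenEmbedding_ch (a : A) : IsOpenEmbedding (ch φ a) := by
  refine IsOpenEmbedding.of_continuous_injective_isOpenMap (continuous_ch φ a) ?_ ?_
  · intro z w h
    exact hinj a (congrArg Subtype.val h)
  · intro W hW
    exact isOpen_image hcomp hW a

end atlas

section construction

variable {I : Type} (K : I → Set ℝ)

/-- the sets along which the sheets branch -/
def KK : Option I → Set ℝ
  | none => ∅
  | some i => K i

@[simp] lemma KK_none : KK K none = ∅ := rfl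

open Classical in
/-- charts of the example -/
noncomputable def phi (p : ℝ × Option I) (z : ℝ × ℝ) : ℝ × ℝ × ℝ × Option I :=
  (p.1 + z.1 * z.2, z.2, if z.2 = 0 then z.1 else 0, if z.2 ∈ KK K p.2 then p.2 else none)

lemma phi_inj (p : ℝ × Option I) : Function.Injective (phi K p) := by
  intro z w h
  simp only [phi, Prod.mk.injEq] at h
  obtain ⟨h1, h2, h3, -⟩ := h
  rw [h2] at h3 h1
  by_cases hw : w.2 = 0
  · simp only [hw, if_true] at h3
    exact Prod.ext h3 h2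
  · have : z.1 * w.2 = w.1 * w.2 := by linarith
    exact Prod.ext (mul_right_cancel₀ hw this) h2

variable {K} (hK : ∀ i, IsClosed (K i))

include hK in
lemma KK_closed (o : Option I) : IsClosed (KK K o) := by
  rcases o with _ | i
  · exact isClosed_empty
  · exact hK i

lemma label_eq_iff {o o' : Option I} (h : o ≠ o') (t : ℝ) [Decidable (t ∈ KK K o)]
    [Decidable (t ∈ KK K o')] :
    ((if t ∈ KK K o then o else none) = (if t ∈ KK K o' then o' else none)) ↔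
      t ∉ KK K o ∧ t ∉ KK K o' := by
  by_cases h1 : t ∈ KK K o <;> by_cases h2 : t ∈ KK K o'
  · simp [h1, h2, h]
  · simp only [h1, h2, if_true, if_false]
    constructor
    · intro h3
      subst h3
      exact absurd h1 (by simp [KK])
    · rintro ⟨h3, -⟩
      exact absurd trivial h3
  · simp only [h1, h2, if_true, if_false]
    constructor
    · intro h3
      rw [← h3] at h2
      exact absurd h2 (by simp [KK])
    · rintro ⟨-, h3⟩
      exact absurd trivial h3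
  · simp [h1, h2]

include hK in
lemma phi_comp (p q : ℝ × Option I) (W : Set (ℝ × ℝ)) (hW : IsOpen W) :
    IsOpen (phi K p ⁻¹' (phi K q '' W)) := by
  classical
  -- the set of heights where the labels agree
  let L : Set ℝ := {t | (if t ∈ KK K p.2 then p.2 else none) = (if t ∈ KK K q.2 then q.2 else none)}
  have hL : IsOpen L := by
    by_cases h : p.2 = q.2
    · have : L = Set.univ := by
        ext t
        simp [L, h]
      rw [this]
      exact isOpen_univ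
    · have : L = (KK K p.2)ᶜ ∩ (KK K q.2)ᶜ := by
        ext t
        exact label_eq_iff h t
      rw [this]
      exact (KK_closed hK _).isOpen_compl.inter (KK_closed hK _).isOpen_compl
  have hL2 : IsOpen {z : ℝ × ℝ | z.2 ∈ L} := hL.preimage continuous_snd
  by_cases hpq : p.1 = q.1
  · have : phi K p ⁻¹' (phi K q '' W) = W ∩ {z : ℝ × ℝ | z.2 ∈ L} := by
      ext z
      constructor
      · rintro ⟨w, hw, h⟩
        simp only [phi, Prod.mk.injEq] at h
        obtain ⟨h1, h2, h3, h4⟩ := h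
        have hwz : w = z := by
          rw [h2] at h3 h1
          by_cases hz : z.2 = 0
          · simp only [hz, if_true] at h3
            exact Prod.ext h3 h2
          · have : w.1 * z.2 = z.1 * z.2 := by linarith
            exact Prod.ext (mul_right_cancel₀ hz this) h2
        subst hwz
        exact ⟨hw, h4.symm⟩
      · rintro ⟨hw, hz⟩
        refine ⟨z, hw, ?_⟩
        simp only [phi, Prod.mk.injEq, true_and]
        exact ⟨by rw [hpq], hz.symm⟩
    rw [this]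
    exact hW.inter hL2
  · have : phi K p ⁻¹' (phi K q '' W) = ({z : ℝ × ℝ | z.2 ≠ 0} ∩
        (fun z : ℝ × ℝ => ((p.1 - q.1) / z.2 + z.1, z.2)) ⁻¹' W) ∩ {z : ℝ × ℝ | z.2 ∈ L} := by
      ext z
      constructor
      · rintro ⟨w, hw, h⟩
        simp only [phi, Prod.mk.injEq] at h
        obtain ⟨h1, h2, h3, h4⟩ := h
        rw [h2] at h1
        have hz : z.2 ≠ 0 := by
          intro hz
          rw [hz] at h1
          apply hpq
          linarith
        refine ⟨⟨hz, ?_⟩, ?_⟩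
        · show ((p.1 - q.1) / z.2 + z.1, z.2) ∈ W
          have : ((p.1 - q.1) / z.2 + z.1, z.2) = w := by
            refine Prod.ext ?_ h2.symm
            show (p.1 - q.1) / z.2 + z.1 = w.1
            field_simp
            linarith
          rw [this]; exact hw
        · show _ = _
          rw [← h4, h2]
      · rintro ⟨⟨hz, hw⟩, hl⟩
        refine ⟨_, hw, ?_⟩
        simp only [phi, Prod.mk.injEq, true_and]
        have hz' : z.2 ≠ 0 := hz
        refine ⟨?_, ?_, hl.symm⟩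
        · field_simp
          ring
        · simp [hz']
    rw [this]
    refine IsOpen.inter ?_ hL2
    refine ContinuousOn.isOpen_inter_preimage ?_ ?_ hW
    · refine ContinuousOn.prodMk ?_ continuousOn_snd
      refine ContinuousOn.add ?_ continuousOn_fst
      exact ContinuousOn.div continuousOn_const continuousOn_snd fun z hz => hz
    · exact isOpen_ne_fun continuous_snd continuous_const

end construction


/-! ### The example -/

section construction2

variable {I : Type} {K : I → Set ℝ} (hK : ∀ i, IsClosed (K i)) (hKn : ∀ i, interior (K i) = ∅)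
  (hcov : ∀ t, ∃ i, t ∈ K i)

/-- the example -/
abbrev Ex (K : I → Set ℝ) : Type := Sp (phi K)

include hK in
lemma emb (p : ℝ × Option I) : IsOpenEmbedding (ch (phi K) p) :=
  isOpenEmbedding_ch (phi_inj K) (phi_comp hK) p

/-- `ℝ × ℝ` is `ℝ²` -/
noncomputable def toE2 : (ℝ × ℝ) ≃ₜ E 2 :=
  ((EuclideanSpace.equiv (Fin 2) ℝ).toHomeomorph.trans Homeomorph.finTwoArrow).symm

include hK in
lemma isChart_range (p : ℝ × Option I) : IsChart 2 (range (ch (phi K) p)) :=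
  ⟨(emb hK p).isOpen_range, ⟨(emb hK p).isEmbedding.toHomeomorph.symm.trans toE2⟩⟩

include hKn in
lemma KK_dense (o : Option I) (O : Set ℝ) (hO : IsOpen O) (hne : O.Nonempty) :
    ∃ t ∈ O, t ∉ KK K o := by
  by_contra hcon
  push Not at hcon
  obtain ⟨t, ht⟩ := hne
  rcases o with _ | i
  · exact hcon t ht
  · have h1 : t ∈ interior (K i) := mem_interior.2 ⟨O, hcon, hO, ht⟩
    rw [hKn i] at h1
    exact h1

include hK hKn in
lemma ex_mfd : IsMfd 2 (Ex K) := by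
  refine ⟨?_, ?_⟩
  · have h0 : IsPreconnected (Set.univ : Set (Ex K)) := by
      refine isPreconnected_of_forall (ch (phi K) (0, none) (0, 1)) ?_
      rintro ⟨_, p, z, rfl⟩ -
      refine ⟨range (ch (phi K) (0, none)) ∪ range (ch (phi K) p), subset_univ _,
        Or.inl ⟨_, rfl⟩, Or.inr ⟨z, rfl⟩, ?_⟩
      refine IsPreconnected.union' ?_ (isPreconnected_range (continuous_ch _ _))
        (isPreconnected_range (continuous_ch _ _))
      obtain ⟨t, ht0, ht⟩ := KK_dense hKn p.2 (Ioi 0) isOpen_Ioi ⟨1, by simp⟩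
      have ht1 : t ≠ 0 := ne_of_gt ht0
      refine ⟨ch (phi K) p (0, t), ⟨(p.1 / t, t), Subtype.ext ?_⟩, ⟨(0, t), rfl⟩⟩
      show phi K (0, none) (p.1 / t, t) = phi K p (0, t)
      simp [phi, ht, ht1]
    have : Nonempty (Ex K) := ⟨ch (phi K) (0, none) (0, 1)⟩
    have : PreconnectedSpace (Ex K) := ⟨h0⟩
    exact ConnectedSpace.mk inferInstance
  · rintro ⟨_, p, z, rfl⟩
    exact ⟨range (ch (phi K) p), ⟨z, rfl⟩, isChart_range hK p⟩

include hKn in
lemma insep {o : Option I} {a u v : ℝ} (U V : Set (Ex K)) (hU : IsOpen U) (hV : IsOpen V)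
    (h1 : ch (phi K) (a, none) (u, v) ∈ U) (h2 : ch (phi K) (a, o) (u, v) ∈ V) :
    (U ∩ V).Nonempty := by
  have hO : IsOpen (ch (phi K) (a, none) ⁻¹' U ∩ ch (phi K) (a, o) ⁻¹' V) :=
    (hU.preimage (continuous_ch _ _)).inter (hV.preimage (continuous_ch _ _))
  have hO2 : IsOpen ((fun t : ℝ => (u, t)) ⁻¹'
      (ch (phi K) (a, none) ⁻¹' U ∩ ch (phi K) (a, o) ⁻¹' V)) := hO.preimage (by fun_prop)
  obtain ⟨t, ht, htK⟩ := KK_dense hKn o _ hO2 ⟨v, h1, h2⟩
  refine ⟨ch (phi K) (a, none) (u, t), ht.1, ?_⟩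
  have : ch (phi K) (a, none) (u, t) = ch (phi K) (a, o) (u, t) :=
    Subtype.ext (by simp [ch, phi, htK])
  rw [this]; exact ht.2

include hK hKn hcov in
lemma ex_enh : IsENH 2 (Ex K) := by
  refine ⟨ex_mfd hK hKn, ?_⟩
  rintro ⟨_, ⟨a, o⟩, ⟨u, v⟩, rfl⟩
  by_cases hv : v ∈ KK K o
  · refine ⟨ch (phi K) (a, none) (u, v), ?_, ?_⟩
    · intro h
      have h1 := congrArg (fun x : Ex K => x.1.2.2.2) h
      simp only [ch, phi, hv, KK_none, if_true, mem_empty_iff_false, if_false] at h1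
      subst h1
      exact hv
    · intro U V hU hV h1 h2
      rw [inter_comm]
      exact insep hKn V U hV hU h2 h1
  · obtain ⟨i, hi⟩ := hcov v
    have hx : (⟨phi K (a, o) (u, v), (a, o), (u, v), rfl⟩ : Ex K) =
        ch (phi K) (a, none) (u, v) := Subtype.ext (by simp [ch, phi, hv])
    rw [hx]
    have hi' : v ∈ KK K (some i) := hi
    refine ⟨ch (phi K) (a, some i) (u, v), ?_, ?_⟩
    · intro h
      have h1 := congrArg (fun x : Ex K => x.1.2.2.2) h
      simp only [ch, phi, hi', if_true] at h1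
      simp at h1
    · intro U V hU hV h1 h2
      exact insep hKn U V hU hV h1 h2

/-- the sheet of index `o` -/
def sheet (K : I → Set ℝ) (o : Option I) : Set (Ex K) := ⋃ a : ℝ, range (ch (phi K) (a, o))

include hK in
lemma sheet_open (o : Option I) : IsOpen (sheet K o) :=
  isOpen_iUnion fun a => (emb hK (a, o)).isOpen_range

include hK in
lemma sep_chart (p : ℝ × Option I) {x y : Ex K} (hx : x ∈ range (ch (phi K) p))
    (hy : y ∈ range (ch (phi K) p)) (hne : x ≠ y) :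
    ∃ U V : Set (Ex K), IsOpen U ∧ IsOpen V ∧ x ∈ U ∧ y ∈ V ∧ Disjoint U V := by
  obtain ⟨z, rfl⟩ := hx
  obtain ⟨w, rfl⟩ := hy
  have hzw : z ≠ w := fun h => hne (by rw [h])
  obtain ⟨A, B, hA, hB, hzA, hwB, hAB⟩ := t2_separation hzw
  exact ⟨_, _, (emb hK p).isOpenMap A hA, (emb hK p).isOpenMap B hB, ⟨z, hzA, rfl⟩, ⟨w, hwB, rfl⟩,
    (Set.disjoint_image_iff (emb hK p).injective).2 hAB⟩

lemma transfer (o : Option I) (a b u v : ℝ) (hv : v ≠ 0) :
    ch (phi K) (a, o) (u, v) ∈ range (ch (phi K) (b, o)) := by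
  refine ⟨((a - b) / v + u, v), Subtype.ext ?_⟩
  simp only [ch, phi, hv, if_false, Prod.mk.injEq, and_true]
  field_simp
  ring

include hK in
lemma sep (o : Option I) {x y : Ex K} (hx : x ∈ sheet K o) (hy : y ∈ sheet K o) (hne : x ≠ y) :
    ∃ U V : Set (Ex K), IsOpen U ∧ IsOpen V ∧ x ∈ U ∧ y ∈ V ∧ Disjoint U V := by
  obtain ⟨a, ⟨u, v⟩, rfl⟩ := mem_iUnion.1 hx
  obtain ⟨b, ⟨u', v'⟩, rfl⟩ := mem_iUnion.1 hy
  by_cases hab : a = b
  · subst hab
    exact sep_chart hK (a, o) ⟨_, rfl⟩ ⟨_, rfl⟩ hne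
  by_cases hv : v = 0
  swap
  · exact sep_chart hK (b, o) (transfer o a b u v hv) ⟨_, rfl⟩ hne
  by_cases hv' : v' = 0
  swap
  · exact sep_chart hK (a, o) ⟨_, rfl⟩ (transfer o b a u' v' hv') hne
  subst hv
  subst hv'
  have hab' : 0 < |a - b| := abs_pos.2 (sub_ne_zero.2 hab)
  set R : ℝ := |u| + |u'| + 1 with hR
  have hR0 : 0 < R := by positivity
  set ε : ℝ := |a - b| / (4 * R) with hε
  have hε0 : 0 < ε := by positivity
  let W : Set (ℝ × ℝ) := {s | |s.1| < R ∧ |s.2| < ε}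
  have hW1 : IsOpen {s : ℝ × ℝ | |s.1| < R} := isOpen_lt (by fun_prop) (by fun_prop)
  have hW2 : IsOpen {s : ℝ × ℝ | |s.2| < ε} := isOpen_lt (by fun_prop) (by fun_prop)
  have hW : IsOpen W := hW1.inter hW2
  refine ⟨_, _, (emb hK (a, o)).isOpenMap W hW, (emb hK (b, o)).isOpenMap W hW,
    ⟨(u, 0), ⟨?_, ?_⟩, rfl⟩, ⟨(u', 0), ⟨?_, ?_⟩, rfl⟩, ?_⟩
  · show |u| < R
    have := abs_nonneg u'
    linarith
  · show |(0 : ℝ)| < ε
    simpa using hε0
  · show |u'| < R
    have := abs_nonneg u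
    linarith
  · show |(0 : ℝ)| < ε
    simpa using hε0
  · rw [Set.disjoint_left]
    rintro _ ⟨⟨s, t⟩, ⟨hs, ht⟩, rfl⟩ ⟨⟨s', t'⟩, ⟨hs', ht'⟩, h⟩
    have h1 := congrArg (fun x : Ex K => x.1.1) h
    have h2 := congrArg (fun x : Ex K => x.1.2.1) h
    simp only [ch, phi] at h1 h2
    subst h2
    simp only at hs ht hs' ht'
    have h3 : a - b = (s' - s) * t' := by linarith
    have h4 : |a - b| = |s' - s| * |t'| := by rw [h3, abs_mul]
    have h5 : |s' - s| ≤ 2 * R := by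
      have := abs_sub s' s
      linarith
    have h6 : |s' - s| * |t'| ≤ 2 * R * ε :=
      mul_le_mul h5 ht.le (abs_nonneg _) (by positivity)
    have h7 : 2 * R * ε = |a - b| / 2 := by
      rw [hε]; field_simp; ring
    linarith

include hK in
lemma sheet_t2 (o : Option I) : T2Space (sheet K o) := by
  refine ⟨?_⟩
  rintro ⟨x, hx⟩ ⟨y, hy⟩ hne
  have hne' : x ≠ y := fun h => hne (Subtype.ext h)
  obtain ⟨U, V, hU, hV, hxU, hyV, hUV⟩ := sep hK o hx hy hne'
  exact ⟨Subtype.val ⁻¹' U, Subtype.val ⁻¹' V, hU.preimage continuous_subtype_val,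
    hV.preimage continuous_subtype_val, hxU, hyV, hUV.preimage _⟩

include hK in
lemma hausdorffNumber_ex : hausdorffNumber (Ex K) ≤ #(Option I) := by
  have h7 : #(range (sheet K)) ∈ {κ : Cardinal.{0} | ∃ 𝒰 : Set (Set (Ex K)),
      (∀ U ∈ 𝒰, IsOpen U ∧ T2Space U) ∧ ⋃₀ 𝒰 = Set.univ ∧ #𝒰 = κ} := by
    refine ⟨range (sheet K), ?_, ?_, rfl⟩
    · rintro _ ⟨o, rfl⟩
      exact ⟨sheet_open hK o, sheet_t2 hK o⟩
    · refine Set.eq_univ_of_forall ?_
      rintro ⟨_, ⟨a, o⟩, z, rfl⟩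
      exact ⟨sheet K o, ⟨o, rfl⟩, mem_iUnion.2 ⟨a, z, rfl⟩⟩
  exact (csInf_le' h7).trans Cardinal.mk_range_le

include hK in
lemma continuum_le_card {Z : Type} [TopologicalSpace Z] [Nonempty Z] (𝒰 : Set (Set (Ex K × Z)))
    (h1 : ∀ U ∈ 𝒰, SecondCountableTopology U) (h2 : ⋃₀ 𝒰 = Set.univ) : 𝔠 ≤ #𝒰 := by
  by_contra hlt
  rw [not_le] at hlt
  obtain ⟨z₀⟩ : Nonempty Z := inferInstance
  have hex : ∀ U : 𝒰, ∃ C : Set ℝ, C.Countable ∧
      (U : Set (Ex K × Z)) ⊆ ⋃ a ∈ C, Prod.fst ⁻¹' (⋃ o, range (ch (phi K) (a, o))) := by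
    intro U
    have : SecondCountableTopology U.1 := h1 U U.2
    have hL : IsLindelof (U : Set (Ex K × Z)) := by
      have h5 : IsLindelof (Set.univ : Set U.1) := isLindelof_univ
      have h6 := h5.image (f := (Subtype.val : U.1 → Ex K × Z)) continuous_subtype_val
      rwa [image_univ, Subtype.range_val] at h6
    refine hL.elim_countable_subcover
      (fun a : ℝ => Prod.fst ⁻¹' (⋃ o, range (ch (phi K) (a, o))))
      (fun a => (isOpen_iUnion fun o => (emb hK (a, o)).isOpen_range).preimage continuous_fst) ?_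
    rintro ⟨⟨_, ⟨a, o⟩, z, rfl⟩, q⟩ -
    exact mem_iUnion.2 ⟨a, mem_iUnion.2 ⟨o, z, rfl⟩⟩
  choose C hC hUC using hex
  have hR : (⋃ U, C U) = Set.univ := by
    refine Set.eq_univ_of_forall fun a => ?_
    obtain ⟨U, hU, haU⟩ : (ch (phi K) (a, none) (0, 0), z₀) ∈ ⋃₀ 𝒰 := by rw [h2]; trivial
    obtain ⟨b, hb, hb2⟩ := mem_iUnion₂.1 (hUC ⟨U, hU⟩ haU)
    obtain ⟨o, z, hz⟩ := mem_iUnion.1 hb2
    have h4 := congrArg (fun x : Ex K => x.1.1) hz
    have h5 := congrArg (fun x : Ex K => x.1.2.1) hz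
    simp only [ch, phi] at h4 h5
    rw [h5] at h4
    have : b = a := by linarith
    rw [← this]
    exact mem_iUnion.2 ⟨_, hb⟩
  have h8 : #(⋃ U, C U) ≤ #𝒰 * ℵ₀ := by
    calc #(⋃ U, C U) ≤ Cardinal.sum fun U => #(C U) := Cardinal.mk_iUnion_le_sum_mk
      _ ≤ Cardinal.sum fun _ : 𝒰 => ℵ₀ := Cardinal.sum_le_sum _ _ fun U =>
          Cardinal.le_aleph0_iff_set_countable.2 (hC U)
      _ = #𝒰 * ℵ₀ := Cardinal.sum_const' _ _
  rw [hR, Cardinal.mk_univ, Cardinal.mk_real] at h8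
  exact absurd h8 (not_le.2 (Cardinal.mul_lt_of_lt Cardinal.aleph0_le_continuum hlt
    Cardinal.aleph0_lt_continuum))

end construction2

/-! ### Products with Euclidean spaces -/

section prods

variable {m : ℕ} {M : Type} [TopologicalSpace M]

/-- `U × ℝᵏ` as a subset of `M × ℝᵏ` -/
def homU (k : ℕ) (U : Set M) : (U ×ˢ (Set.univ : Set (E k)) : Set (M × E k)) ≃ₜ U × E k :=
  (Homeomorph.Set.prod U Set.univ).trans ((Homeomorph.refl U).prodCongr (Homeomorph.Set.univ (E k)))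

lemma IsMfd.prod (h : IsMfd m M) (k : ℕ) : IsMfd (m + k) (M × E k) := by
  refine ⟨?_, ?_⟩
  · have := h.1
    infer_instance
  · rintro ⟨x, z⟩
    obtain ⟨U, hxU, hUo, ⟨e⟩⟩ := h.2 x
    exact ⟨U ×ˢ Set.univ, ⟨hxU, trivial⟩, hUo.prod isOpen_univ,
      ⟨((homU k U).trans (e.prodCongr (Homeomorph.refl _))).trans (prodE m k)⟩⟩

lemma IsENH.prod (h : IsENH m M) (k : ℕ) : IsENH (m + k) (M × E k) := by
  refine ⟨h.1.prod k, ?_⟩
  rintro ⟨x, z⟩
  obtain ⟨y, hyx, hy⟩ := h.2 x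
  refine ⟨(y, z), fun hh => hyx (congrArg Prod.fst hh), ?_⟩
  intro U V hU hV hxU hyV
  have hc : Continuous fun w : M => (w, z) := by fun_prop
  obtain ⟨w, hw1, hw2⟩ := hy ((fun w : M => (w, z)) ⁻¹' U) ((fun w : M => (w, z)) ⁻¹' V)
    (hU.preimage hc) (hV.preimage hc) hxU hyV
  exact ⟨(w, z), hw1, hw2⟩

lemma IsMfd.hausdorffNumber_prod_le (h : IsMfd m M) (k : ℕ) :
    hausdorffNumber (M × E k) ≤ hausdorffNumber M := by
  obtain ⟨𝒰, h1, h2, h3⟩ := h.exists_hausdorff_cover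
  have h7 : #((fun U : Set M => (U ×ˢ (Set.univ : Set (E k)) : Set (M × E k))) '' 𝒰) ∈
      {κ : Cardinal.{0} | ∃ 𝒰 : Set (Set (M × E k)),
      (∀ U ∈ 𝒰, IsOpen U ∧ T2Space U) ∧ ⋃₀ 𝒰 = Set.univ ∧ #𝒰 = κ} := by
    refine ⟨_, ?_, ?_, rfl⟩
    · rintro _ ⟨U, hU, rfl⟩
      have := (h1 U hU).2
      exact ⟨(h1 U hU).1.prod isOpen_univ, (homU k U).isEmbedding.t2Space⟩
    · refine Set.eq_univ_of_forall ?_
      rintro ⟨x, z⟩
      obtain ⟨U, hU, hxU⟩ : x ∈ ⋃₀ 𝒰 := by rw [h2]; trivial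
      exact ⟨_, ⟨U, hU, rfl⟩, hxU, trivial⟩
  rw [← h3]
  exact (csInf_le' h7).trans Cardinal.mk_image_le

lemma IsMfd.exists_min_chart_cover {n : ℕ} (h : IsMfd n M) :
    ∃ 𝒰 : Set (Set M), (∀ U ∈ 𝒰, IsChart n U) ∧ ⋃₀ 𝒰 = Set.univ ∧ #𝒰 = chartNumber n M := by
  obtain ⟨𝒰', h1', h2', -⟩ := h.exists_chart_cover
  have hne : {κ : Cardinal.{0} | ∃ 𝒰 : Set (Set M), (∀ U ∈ 𝒰, IsChart n U) ∧
      ⋃₀ 𝒰 = Set.univ ∧ #𝒰 = κ}.Nonempty := ⟨#𝒰', 𝒰', h1', h2', rfl⟩
  exact csInf_mem hne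

end prods

lemma exists_example (n : ℕ) (hn : 2 ≤ n) : ∃ (M : Type) (_ : TopologicalSpace M),
    IsENH n M ∧ hausdorffNumber M = covB ∧ chartNumber n M = 𝔠 := by
  obtain ⟨k, rfl⟩ := Nat.exists_eq_add_of_le hn
  obtain ⟨𝒩, hN, hcov, hcard⟩ := exists_covB
  let K : 𝒩 → Set ℝ := fun N => closure (N : Set ℝ)
  have hK : ∀ i, IsClosed (K i) := fun i => isClosed_closure
  have hKn : ∀ i, interior (K i) = ∅ := fun i => hN i i.2
  have hKc : ∀ t, ∃ i, t ∈ K i := by
    intro t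
    obtain ⟨N, hN1, hN2⟩ : t ∈ ⋃₀ 𝒩 := by rw [hcov]; trivial
    exact ⟨⟨N, hN1⟩, subset_closure hN2⟩
  have henh : IsENH (2 + k) (Ex K × E k) := (ex_enh hK hKn hKc).prod k
  have hH : hausdorffNumber (Ex K × E k) ≤ covB := by
    refine ((ex_mfd hK hKn).hausdorffNumber_prod_le k).trans ((hausdorffNumber_ex hK).trans ?_)
    rw [Cardinal.mk_option, hcard, Cardinal.add_one_eq aleph0_lt_covB.le]
  refine ⟨Ex K × E k, inferInstance, henh, le_antisymm hH henh.covB_le, le_antisymm ?_ ?_⟩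
  · exact henh.1.chartNumber_le_max.trans (max_le (hH.trans covB_le_continuum) le_rfl)
  · obtain ⟨𝒰, h1, h2, h3⟩ := henh.1.exists_min_chart_cover
    rw [← h3]
    refine continuum_le_card hK 𝒰 ?_ h2
    intro U hU
    obtain ⟨-, ⟨e⟩⟩ := h1 U hU
    exact e.isEmbedding.secondCountableTopology

/-- The result. -/
theorem result :
    (∀ (n : ℕ) (M : Type) [TopologicalSpace M], IsENH n M → hausdorffNumber M < chartNumber n M →
      covB ≤ hausdorffNumber M ∧ chartNumber n M ≤ 𝔠) ∧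
    (∀ n : ℕ, 2 ≤ n → ∃ (M : Type) (_ : TopologicalSpace M),
      IsENH n M ∧ hausdorffNumber M = covB ∧ chartNumber n M = 𝔠) ∧
    ((∃ (n : ℕ) (M : Type) (_ : TopologicalSpace M),
      IsENH n M ∧ hausdorffNumber M < chartNumber n M) ↔ covB < 𝔠) := by
  have h1 : ∀ (n : ℕ) (M : Type) [TopologicalSpace M], IsENH n M →
      hausdorffNumber M < chartNumber n M →
      covB ≤ hausdorffNumber M ∧ chartNumber n M ≤ 𝔠 := by
    intro n M _ h hlt
    refine ⟨h.covB_le, ?_⟩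
    have h2 : hausdorffNumber M < 𝔠 := by
      by_contra hcon
      rw [not_lt] at hcon
      exact hlt.ne' (h.1.eq_of_le hcon)
    exact h.1.chartNumber_le_max.trans (max_le h2.le le_rfl)
  refine ⟨h1, exists_example, ?_, ?_⟩
  · rintro ⟨n, M, _, h, hlt⟩
    exact (h1 n M h hlt).1.trans_lt (hlt.trans_le (h1 n M h hlt).2)
  · intro hc
    obtain ⟨M, _, h, hM1, hM2⟩ := exists_example 2 le_rfl
    exact ⟨2, M, inferInstance, h, by rw [hM1, hM2]; exact hc⟩

end Pool.Agent.Results.MP_434b1a_gt.CovNumberCriterion
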