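import Pool.Agent.Results.MP_434b1a_gt.CovNumberCriterion

open Set Filter Topology Cardinal

namespace Pool.Agent.Results.MP_434b1a_gt.HomogeneousReduction

open Pool.Agent.Results.MP_434b1a_gt.CovNumberCriterion

/-- any two points are exchanged by a self-homeomorphism -/
def Homog (X : Type) [TopologicalSpace X] : Prop := ∀ x y : X, ∃ h : X ≃ₜ X, h x = y

/-- homogeneous non-Hausdorff manifolds of dimension `n` -/
def IsHNH (n : ℕ) (M : Type) [TopologicalSpace M] : Prop :=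
  IsMfd n M ∧ ¬ T2Space M ∧ Homog M

lemma extend {X Y : Type} [TopologicalSpace X] [TopologicalSpace Y] [T2Space X] {φ : Y → X}
    (hφ : IsOpenEmbedding φ) (g : Y ≃ₜ Y) (C : Set Y) (hC : IsCompact C)
    (hg : ∀ y, y ∉ C → g y = y) : ∃ G : X ≃ₜ X, ∀ y, G (φ y) = φ (g y) := by
  classical
  let F (f : Y → Y) (x : X) : X := if h : ∃ y, φ y = x then φ (f h.choose) else x
  have hF1 : ∀ f y, F f (φ y) = φ (f y) := by
    intro f y
    have h : ∃ y', φ y' = φ y := ⟨y, rfl⟩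
    show (if h : ∃ y', φ y' = φ y then φ (f h.choose) else φ y) = _
    rw [dif_pos h, hφ.injective h.choose_spec]
  have hF2 : ∀ f x, x ∉ range φ → F f x = x := fun f x hx => dif_neg (by simpa using hx)
  have hclosed : IsClosed (φ '' C) := (hC.image hφ.continuous).isClosed
  have hF3 : ∀ f : Y → Y, (∀ y, y ∉ C → f y = y) → ∀ x, x ∉ φ '' C → F f x = x := by
    intro f hf x hx
    by_cases h : x ∈ range φ
    · obtain ⟨y, rfl⟩ := h
      rw [hF1, hf y (fun hy => hx ⟨y, hy, rfl⟩)]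
    · exact hF2 f x h
  have hcont : ∀ f : Y → Y, Continuous f → (∀ y, y ∉ C → f y = y) → Continuous (F f) := by
    intro f hf hfC
    rw [continuous_iff_continuousAt]
    intro x
    by_cases h : x ∈ range φ
    · obtain ⟨y, rfl⟩ := h
      have h1 : ContinuousAt (F f ∘ φ) y := by
        have h2 : F f ∘ φ = φ ∘ f := funext (hF1 f)
        rw [h2]; exact (hφ.continuous.comp hf).continuousAt
      exact hφ.continuousAt_iff.1 h1
    · have hx : x ∈ (φ '' C)ᶜ := fun ⟨y, _, hy⟩ => h ⟨y, hy⟩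
      have h1 : F f =ᶠ[𝓝 x] id := by
        filter_upwards [hclosed.isOpen_compl.mem_nhds hx] with z hz
        exact hF3 f hfC z hz
      exact continuousAt_id.congr h1.symm
  have hgs : ∀ y, y ∉ C → g.symm y = y := by
    intro y hy
    rw [g.symm_apply_eq, hg y hy]
  have hinv : ∀ (f f' : Y → Y), (∀ y, f' (f y) = y) → ∀ x, F f' (F f x) = x := by
    intro f f' hff x
    by_cases h : x ∈ range φ
    · obtain ⟨y, rfl⟩ := h
      rw [hF1, hF1, hff]
    · rw [hF2 f x h, hF2 f' x h]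
  exact ⟨{ toFun := F g, invFun := F g.symm, left_inv := hinv _ _ g.symm_apply_apply,
           right_inv := hinv _ _ g.apply_symm_apply, continuous_toFun := hcont _ g.continuous hg,
           continuous_invFun := hcont _ g.symm.continuous hgs }, fun y => hF1 g y⟩

lemma move (z w : ℝ × ℝ) : ∃ (g : (ℝ × ℝ) ≃ₜ (ℝ × ℝ)) (C : Set (ℝ × ℝ)), IsCompact C ∧
    (∀ y, y ∉ C → g y = y) ∧ g z = w := by
  set R : ℝ := 2 * (‖w - z‖ + 1) with hR
  have hR0 : 0 < R := by positivity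
  let f : ℝ × ℝ → ℝ × ℝ := fun x => x + max (1 - ‖x - z‖ / R) 0 • (w - z)
  have hf : ApproximatesLinearOn f ((ContinuousLinearEquiv.refl ℝ (ℝ × ℝ) :
      (ℝ × ℝ) ≃L[ℝ] (ℝ × ℝ)) : (ℝ × ℝ) →L[ℝ] (ℝ × ℝ)) Set.univ (1 / 2) := by
    intro x _ y _
    have h1 : f x - f y - ((ContinuousLinearEquiv.refl ℝ (ℝ × ℝ) :
      (ℝ × ℝ) ≃L[ℝ] (ℝ × ℝ)) : (ℝ × ℝ) →L[ℝ] (ℝ × ℝ)) (x - y) =
        (max (1 - ‖x - z‖ / R) 0 - max (1 - ‖y - z‖ / R) 0) • (w - z) := by
      simp only [f, ContinuousLinearEquiv.coe_coe, ContinuousLinearEquiv.refl_apply, sub_smul]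
      abel
    rw [h1, norm_smul, Real.norm_eq_abs]
    have h2 : |max (1 - ‖x - z‖ / R) 0 - max (1 - ‖y - z‖ / R) 0| ≤ ‖x - y‖ / R := by
      refine (abs_max_sub_max_le_abs _ _ _).trans ?_
      have h3 : (1 - ‖x - z‖ / R) - (1 - ‖y - z‖ / R) = (‖y - z‖ - ‖x - z‖) / R := by ring
      rw [h3, abs_div, abs_of_pos hR0]
      refine div_le_div_of_nonneg_right ?_ hR0.le
      have h4 := abs_norm_sub_norm_le (y - z) (x - z)
      have h5 : y - z - (x - z) = y - x := by abel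
      rw [h5, norm_sub_rev y x] at h4
      exact h4
    calc |max (1 - ‖x - z‖ / R) 0 - max (1 - ‖y - z‖ / R) 0| * ‖w - z‖
        ≤ (‖x - y‖ / R) * ‖w - z‖ := mul_le_mul_of_nonneg_right h2 (norm_nonneg _)
      _ = ‖x - y‖ * (‖w - z‖ / R) := by ring
      _ ≤ ‖x - y‖ * (1 / 2) := by
          refine mul_le_mul_of_nonneg_left ?_ (norm_nonneg _)
          rw [div_le_iff₀ hR0, hR]
          linarith
      _ = ((1 / 2 : NNReal) : ℝ) * ‖x - y‖ := by push_cast; ring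
  have hc : Subsingleton (ℝ × ℝ) ∨ (1 / 2 : NNReal) <
      ‖((ContinuousLinearEquiv.refl ℝ (ℝ × ℝ)).symm : (ℝ × ℝ) →L[ℝ] (ℝ × ℝ))‖₊⁻¹ := by
    right
    have h1 : ‖((ContinuousLinearEquiv.refl ℝ (ℝ × ℝ)).symm : (ℝ × ℝ) →L[ℝ] (ℝ × ℝ))‖₊ = 1 := by
      have h2 : ‖ContinuousLinearMap.id ℝ (ℝ × ℝ)‖₊ = 1 := ContinuousLinearMap.nnnorm_id
      exact h2
    rw [h1, inv_one]
    exact NNReal.half_lt_self one_ne_zero
  refine ⟨hf.toHomeomorph f hc, Metric.closedBall z R, isCompact_closedBall z R, ?_, ?_⟩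
  · intro y hy
    show f y = y
    have h1 : R < ‖y - z‖ := by
      rw [← dist_eq_norm]
      simpa using hy
    have h2 : max (1 - ‖y - z‖ / R) 0 = 0 := by
      refine max_eq_right ?_
      have h3 : 1 < ‖y - z‖ / R := by rw [lt_div_iff₀ hR0]; linarith
      linarith
    simp only [f, h2, zero_smul, add_zero]
  · show f z = w
    simp [f]

/-! ### The Calabi-Rosenlicht surface -/

/-- no branching -/
def K0 : Empty → Set ℝ := fun e => e.elim

lemma mem_sheet (x : Ex K0) : x ∈ sheet K0 none := by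
  obtain ⟨_, ⟨a, o⟩, z, rfl⟩ := x
  rcases o with _ | e
  · exact mem_iUnion.2 ⟨a, z, rfl⟩
  · exact e.elim

lemma t2_P : T2Space (Ex K0) := by
  refine ⟨fun x y hne => ?_⟩
  exact sep (K := K0) (fun i => i.elim) none (mem_sheet x) (mem_sheet y) hne

lemma homog_P : Homog (Ex K0) := by
  have hK : ∀ i, IsClosed (K0 i) := fun i => i.elim
  have := t2_P
  intro x y
  obtain ⟨a, z, rfl⟩ := mem_iUnion.1 (mem_sheet x)
  obtain ⟨b, w, rfl⟩ := mem_iUnion.1 (mem_sheet y)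
  obtain ⟨w', hw'⟩ := transfer (K := K0) none a b 0 1 one_ne_zero
  obtain ⟨g1, C1, hC1, hg1, hz1⟩ := move z (0, 1)
  obtain ⟨g2, C2, hC2, hg2, hz2⟩ := move w' w
  obtain ⟨G1, hG1⟩ := extend (emb hK (a, none)) g1 C1 hC1 hg1
  obtain ⟨G2, hG2⟩ := extend (emb hK (b, none)) g2 C2 hC2 hg2
  refine ⟨G1.trans G2, ?_⟩
  rw [Homeomorph.trans_apply, hG1, hz1, ← hw', hG2, hz2]

section prods

variable {n m : ℕ} {X Y : Type} [TopologicalSpace X] [TopologicalSpace Y]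

lemma mfd_prod (hX : IsMfd m X) (hY : IsMfd n Y) : IsMfd (m + n) (X × Y) := by
  refine ⟨?_, ?_⟩
  · have := hX.1
    have := hY.1
    infer_instance
  · rintro ⟨x, y⟩
    obtain ⟨U, hxU, hUo, ⟨e⟩⟩ := hX.2 x
    obtain ⟨V, hyV, hVo, ⟨e'⟩⟩ := hY.2 y
    exact ⟨U ×ˢ V, ⟨hxU, hyV⟩, hUo.prod hVo,
      ⟨((Homeomorph.Set.prod U V).trans (e.prodCongr e')).trans (prodE m n)⟩⟩

lemma hausdorffNumber_prod [T2Space X] (hY : IsMfd n Y) :
    hausdorffNumber (X × Y) ≤ hausdorffNumber Y := by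
  obtain ⟨𝒰, h1, h2, h3⟩ := hY.exists_hausdorff_cover
  have h7 : #((fun U : Set Y => ((Set.univ : Set X) ×ˢ U : Set (X × Y))) '' 𝒰) ∈
      {κ : Cardinal.{0} | ∃ 𝒰 : Set (Set (X × Y)),
      (∀ U ∈ 𝒰, IsOpen U ∧ T2Space U) ∧ ⋃₀ 𝒰 = Set.univ ∧ #𝒰 = κ} := by
    refine ⟨_, ?_, ?_, rfl⟩
    · rintro _ ⟨U, hU, rfl⟩
      have := (h1 U hU).2
      exact ⟨isOpen_univ.prod (h1 U hU).1,
        (Homeomorph.Set.prod (Set.univ : Set X) U).isEmbedding.t2Space⟩
    · refine Set.eq_univ_of_forall ?_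
      rintro ⟨x, z⟩
      obtain ⟨U, hU, hxU⟩ : z ∈ ⋃₀ 𝒰 := by rw [h2]; trivial
      exact ⟨_, ⟨U, hU, rfl⟩, trivial, hxU⟩
  rw [← h3]
  exact (csInf_le' h7).trans Cardinal.mk_image_le

end prods

/-- The result. -/
theorem result :
    (∃ (n : ℕ) (M : Type) (_ : TopologicalSpace M),
      IsHNH n M ∧ hausdorffNumber M < chartNumber n M) ↔
    (∃ (n : ℕ) (M : Type) (_ : TopologicalSpace M), IsHNH n M ∧ hausdorffNumber M < 𝔠) := by
  constructor
  · rintro ⟨n, M, _, h, hlt⟩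
    refine ⟨n, M, inferInstance, h, ?_⟩
    by_contra hcon
    rw [not_lt] at hcon
    exact hlt.ne' (h.1.eq_of_le hcon)
  · rintro ⟨n, M, _, h, hlt⟩
    have hK : ∀ i, IsClosed (K0 i) := fun i => i.elim
    have hKn : ∀ i, interior (K0 i) = ∅ := fun i => i.elim
    have hP : IsMfd 2 (Ex K0) := ex_mfd hK hKn
    have hT := t2_P
    have hMP : IsMfd (2 + n) (Ex K0 × M) := mfd_prod hP h.1
    obtain ⟨p₀⟩ : Nonempty (Ex K0) := hP.1.toNonempty
    have hneM : Nonempty M := h.1.1.toNonempty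
    refine ⟨2 + n, Ex K0 × M, inferInstance, ⟨hMP, ?_, ?_⟩, ?_⟩
    · intro hT2
      exact h.2.1 (T2Space.of_injective_continuous (f := fun x : M => (p₀, x))
        (fun x y hxy => congrArg Prod.snd hxy) (by fun_prop))
    · rintro ⟨p, x⟩ ⟨q, y⟩
      obtain ⟨g, hg⟩ := homog_P p q
      obtain ⟨k, hk⟩ := h.2.2 x y
      refine ⟨g.prodCongr k, ?_⟩
      show (g p, k x) = (q, y)
      rw [hg, hk]
    · refine ((hausdorffNumber_prod (X := Ex K0) h.1).trans_lt hlt).trans_le ?_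
      obtain ⟨𝒰, h1, h2, h3⟩ := hMP.exists_min_chart_cover
      rw [← h3]
      refine continuum_le_card hK 𝒰 ?_ h2
      intro U hU
      obtain ⟨-, ⟨e⟩⟩ := h1 U hU
      exact e.isEmbedding.secondCountableTopology

end Pool.Agent.Results.MP_434b1a_gt.HomogeneousReduction
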